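import Pool.Agent.Y926.HD.Main

/-!
# Irrational Hausdorff dimensions over `66 ^ a` letters for all `a ≥ 1` but at most one

The group generated by the automaton over 66 letters of the earlier result `IrrationalDimension`
acts on the tree of the levels `0, a, 2a, ...` of the 66-regular tree, which is the
`66 ^ a`-regular tree. The quotients of the Hausdorff dimensions of the closures are irrational,
hence at most one of these dimensions is rational.
-/

set_option autoImplicit false

namespace Pool.Agent.Results.MP_b868f5_al.AllPowers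

open Pool.Agent.H82R2.Dim Filter

/-- **The theorem.** There are finite invertible automata `M a` over `66 ^ a` letters, `a ≥ 1` (with
the same finite set of states for all `a`), with the following properties. Let `L_a` be the
self-similar group generated by the states of `M a`, and `D_a` the Hausdorff dimension of its closure in
the automorphism group of the `66 ^ a`-regular tree.
(1) `D_a / D_b` is irrational for all `a ≠ b`.
(2) There is at most one `a ≥ 1` for which `D_a` is rational.
(3) All level quotients of `L_a` are 2-groups, and the Hausdorff dimension relative to the Sylow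
pro-2 subgroup is irrational for every `a ≥ 1`.
(4) There is an irrational number `S` such that `log_2 |L_a / st(n)| / (66 ^ a) ^ n` tends to `S`
for all `a ≥ 1`, and `D_a = (66 ^ a - 1) S log 2 / log ((66 ^ a)!)`.
(5) So self-similar groups whose closures have irrational Hausdorff dimension exist over `m` letters
for infinitely many `m`. -/
theorem result :
    (∃ (Q : Type) (_ : Fintype Q) (M : (a : ℕ) → Mealy Q (Fin (66 ^ a))),
      (∀ a b : ℕ, 1 ≤ a → 1 ≤ b → a ≠ b → Irrational ((M a).hdim / (M b).hdim)) ∧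
      (∀ a b : ℕ, 1 ≤ a → 1 ≤ b → ¬ Irrational (M a).hdim → ¬ Irrational (M b).hdim → a = b) ∧
      (∀ a : ℕ, 1 ≤ a → Irrational ((M a).hdimSylow 2) ∧ ∀ n, ∃ k, (M a).levelCard n = 2 ^ k) ∧
      ∃ S : ℝ, Irrational S ∧ ∀ a : ℕ, 1 ≤ a →
        Tendsto (fun n : ℕ => Real.logb 2 ((M a).levelCard n) / ((66 ^ a : ℕ) : ℝ) ^ n)
          atTop (nhds S) ∧
        (M a).hdim = (((66 ^ a : ℕ) : ℝ) - 1) * Real.log 2 / Real.log (Nat.factorial (66 ^ a)) * S) ∧
    {m : ℕ | ∃ (Q : Type) (_ : Fintype Q) (M : Mealy Q (Fin m)), Irrational M.hdim}.Infinite := by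
  obtain ⟨S, hS, hT⟩ := Pool.Agent.Results.MP_b868f5_al.IrrationalDimension.exists_limit
  have hratio : ∀ a b : ℕ, 1 ≤ a → 1 ≤ b → a ≠ b →
      Irrational ((Pool.Agent.Y926.HD.MA a).hdim / (Pool.Agent.Y926.HD.MA b).hdim) := by
    intro a b ha hb hab
    rcases lt_or_gt_of_ne hab with h | h
    · exact Pool.Agent.Y926.HD.ratio_irr hS hT ha h
    · have := (Pool.Agent.Y926.HD.ratio_irr hS hT hb h).inv
      rwa [inv_div] at this
  have hone : ∀ a b : ℕ, 1 ≤ a → 1 ≤ b → ¬ Irrational (Pool.Agent.Y926.HD.MA a).hdim →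
      ¬ Irrational (Pool.Agent.Y926.HD.MA b).hdim → a = b := by
    intro a b ha hb h1 h2
    by_contra hab
    unfold Irrational at h1 h2
    push Not at h1 h2
    obtain ⟨p, hp⟩ := h1
    obtain ⟨q, hq⟩ := h2
    apply hratio a b ha hb hab
    refine ⟨p / q, ?_⟩
    push_cast
    rw [hp, hq]
  refine ⟨⟨_, inferInstance, Pool.Agent.Y926.HD.MA, hratio, hone, fun a ha => ⟨?_, fun n => ?_⟩,
    S, hS, fun a ha => ⟨Pool.Agent.Y926.HD.tendsto_MA ha hT, Pool.Agent.Y926.HD.hdim_MA ha hT⟩⟩, ?_⟩
  · exact Pool.Agent.Results.MP_b868f5_al.IrrationalDimension.irr_sylow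
      (Pool.Agent.Y926.HD.two_le_pow ha) _ hS (Pool.Agent.Y926.HD.tendsto_MA ha hT)
  · rw [Pool.Agent.Y926.HD.levelCard_MA ha]
    exact Pool.Agent.Results.MP_b868f5_al.IrrationalDimension.exists_two_pow _
  · -- infinitely many degrees
    have hinj : Function.Injective (fun a : ℕ => 66 ^ a) := Nat.pow_right_injective (by norm_num)
    have hbad : {a : ℕ | 1 ≤ a ∧ ¬ Irrational (Pool.Agent.Y926.HD.MA a).hdim}.Finite :=
      Set.Subsingleton.finite fun a ha b hb => hone a b ha.1 hb.1 ha.2 hb.2
    have hgood : {a : ℕ | 1 ≤ a ∧ Irrational (Pool.Agent.Y926.HD.MA a).hdim}.Infinite := by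
      intro hfin
      refine (Set.Ici_infinite (1 : ℕ)) ((hbad.union hfin).subset ?_)
      intro a ha
      by_cases h : Irrational (Pool.Agent.Y926.HD.MA a).hdim
      · exact Or.inr ⟨ha, h⟩
      · exact Or.inl ⟨ha, h⟩
    refine (hgood.image hinj.injOn).mono ?_
    rintro _ ⟨a, ⟨_, ha⟩, rfl⟩
    exact ⟨_, inferInstance, Pool.Agent.Y926.HD.MA a, ha⟩

end Pool.Agent.Results.MP_b868f5_al.AllPowers
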